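import Pool.Agent.Helper94.PU.Sheet

/-! row UP (MP_665203_co) -/

open MeasureTheory Metric Set Filter Topology Real
open scoped ENNReal NNReal

namespace H11ST
namespace PU

theorem Fr.mirror {τ ν : E 2} (h : Fr τ ν) : Fr (-τ) ν :=
  ⟨by rw [norm_neg]; exact h.t1, h.n1, by rw [inner_neg_left, h.o, neg_zero]⟩

theorem e1_mirror (τ ν : E 2) : e1 (-τ) ν = e2 τ ν := by
  unfold e1 e2
  module

theorem e2_mirror (τ ν : E 2) : e2 (-τ) ν = e1 τ ν := by
  unfold e1 e2
  module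

theorem InG.mirror {τ ν y : E 2} (h : InG τ ν y) : InG (-τ) ν y := by
  unfold InG at h ⊢
  rw [inner_neg_right, abs_neg]
  exact h

theorem TA.inner_e2 {S : Set (E 2)} {τ ν y : E 2} (h : TA S τ ν y) :
    inner ℝ τ (e2 τ ν) = -(1 / 2 : ℝ) ∧ ‖τ‖ = 1 ∧ ‖e2 τ ν‖ = 1 := by
  obtain ⟨u, ε, T, h0, h1, -⟩ := h
  refine ⟨?_, ?_, ?_⟩
  · rw [← h1, ← h0]
    exact T.ang 0 1 (by decide)
  · rw [← h0]
    exact T.norm 0
  · rw [← h1]
    exact T.norm 1

/-- a line point in the direction `e2` is not a line point in the direction `τ` -/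
theorem not_both {S : Set (E 2)} {τ ν v : E 2} {ε : ℝ} (h : inner ℝ τ (e2 τ ν) = -(1 / 2 : ℝ))
    (ht : ‖τ‖ = 1) (hL : Lin S v (e2 τ ν) ε) : ¬ ∃ ε, Lin S v τ ε := by
  rintro ⟨ε', hL'⟩
  have htt : inner ℝ τ τ = (1 : ℝ) := by
    rw [real_inner_self_eq_norm_sq, ht]
    norm_num
  rcases lin_dir hL hL' with e | e
  · rw [← e, htt] at h
    norm_num at h
  · have e' : e2 τ ν = -τ := by
      have := congrArg Neg.neg e
      rw [neg_neg] at this
      exact this.symm
    rw [e', inner_neg_right, htt] at h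
    norm_num at h

theorem up (hSTEP : ST_STEP) (hGEO : ST_GEO) : ST_UP := by
  intro A S ρ₀ P B
  have hS : IsClosed S := B.L.hS
  have hreg := B.reg
  have key : ∀ n : ℕ, ∀ τ ν y : E 2, Fr τ ν → TA S τ ν y → InG τ ν y → ρ₀ < ‖y‖ → ‖y‖ < 1 →
      {v | v ∈ S ∧ (∃ u ε, Tri S v u ε) ∧ ‖v‖ < ‖y‖}.ncard ≤ n →
      ∃ z ∈ P, ∃ C : Set (E 2), IsPreconnected C ∧ C ⊆ S ∧ y ∈ C ∧ z ∈ C ∧
        (∀ v ∈ C, ¬ ∃ ε, Lin S v τ ε) ∧
        ((∃ ε, Lin S z (e1 τ ν) ε) ∨ ∃ ε, Lin S z (e2 τ ν) ε) := by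
    intro n
    induction n using Nat.strong_induction_on with
    | _ n ih =>
      intro τ ν y hF hTA hG hy0 hy1 hn
      obtain ⟨hang, ht1, he2⟩ := hTA.inner_e2
      have hyS : y ∈ S ∧ ∃ u ε, Tri S y u ε := by
        obtain ⟨u, ε, T, -⟩ := hTA
        exact ⟨T.y_mem, u, ε, T⟩
      have hynot : ¬ ∃ ε, Lin S y τ ε := by
        rintro ⟨ε, hL⟩
        obtain ⟨-, u, ε', T⟩ := hyS
        exact lin_not_tri hL T
      obtain ⟨-, -, -, hg⟩ := hGEO τ ν y hF hG (by linarith [B.r0]) hy1.le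
      obtain ⟨s, hs0, -, hs, hs'⟩ := hg ρ₀ B.r0 hy0
      have hsegc : ∀ r : ℝ, IsPreconnected ((fun a : ℝ => y + a • e2 τ ν) '' Icc 0 r) := by
        intro r
        exact isPreconnected_Icc.image _ (by fun_prop)
      rcases (hSTEP S hS hreg τ ν y hF hTA hy1).2 s hs0 (by rw [hs]; exact B.r1) with
        ⟨hray, hlin⟩ | ⟨s', h0', h1', hray, hTA'⟩
      · have hall : ∀ a, 0 < a → a ≤ s → ∃ ε, Lin S (y + a • e2 τ ν) (e2 τ ν) ε := by
          intro a ha0 ha1
          rcases ha1.eq_or_lt with e | e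
          · rw [e]
            exact hlin
          · exact hray a ha0 e
        refine ⟨y + s • e2 τ ν, ?_, (fun a : ℝ => y + a • e2 τ ν) '' Icc 0 s, hsegc s, ?_, ?_, ?_,
          ?_, Or.inr hlin⟩
        · rw [B.mem]
          obtain ⟨ε, hL⟩ := hlin
          exact ⟨hL.z_mem, by rw [mem_sphere_zero_iff_norm]; exact hs⟩
        · rintro _ ⟨a, ⟨ha0, ha1⟩, rfl⟩
          rcases ha0.eq_or_lt with e | e
          · simp only [← e, zero_smul, add_zero]
            exact hyS.1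
          · obtain ⟨ε, hL⟩ := hall a e ha1
            exact hL.z_mem
        · exact ⟨0, ⟨le_rfl, hs0.le⟩, by simp⟩
        · exact ⟨s, ⟨hs0.le, le_rfl⟩, rfl⟩
        · rintro _ ⟨a, ⟨ha0, ha1⟩, rfl⟩
          rcases ha0.eq_or_lt with e | e
          · simp only [← e, zero_smul, add_zero]
            exact hynot
          · obtain ⟨ε, hL⟩ := hall a e ha1
            exact not_both hang ht1 hL
      · set y' : E 2 := y + s' • e2 τ ν with hy'
        obtain ⟨g1, g2, g3, g4, -, -⟩ := hs' s' h0' h1'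
        obtain ⟨u', ε', T', -⟩ := id hTA'
        have hy'0 : ρ₀ < ‖y'‖ := by
          rcases h1'.eq_or_lt with e | e
          · exfalso
            have hm : y' ∈ P := by
              rw [B.mem]
              refine ⟨T'.y_mem, ?_⟩
              rw [mem_sphere_zero_iff_norm, hy', e]
              exact hs
            obtain ⟨u, ε, hL⟩ := B.lin y' hm
            exact lin_not_tri hL T'
          · exact g3 e
        have hfin : {v | v ∈ S ∧ (∃ u ε, Tri S v u ε) ∧ ‖v‖ < ‖y‖}.Finite := by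
          refine (tri_finite hS (x := 0) (r := 1) (b := ‖y‖) hy1 hreg).subset ?_
          rintro v ⟨h1, h2, h3⟩
          exact ⟨⟨h1, by rw [mem_closedBall_zero_iff]; exact h3.le⟩, h2⟩
        have hlt : {v | v ∈ S ∧ (∃ u ε, Tri S v u ε) ∧ ‖v‖ < ‖y'‖}.ncard <
            {v | v ∈ S ∧ (∃ u ε, Tri S v u ε) ∧ ‖v‖ < ‖y‖}.ncard := by
          refine Set.ncard_lt_ncard ?_ hfin
          refine (Set.ssubset_iff_of_subset ?_).2 ⟨y', ⟨T'.y_mem, ⟨u', ε', T'⟩, g1⟩, ?_⟩
          · rintro v ⟨h1, h2, h3⟩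
            exact ⟨h1, h2, h3.trans g1⟩
          · rintro ⟨-, -, h3⟩
            exact lt_irrefl _ h3
        obtain ⟨z, hz, C, hC, hCS, hyC, hzC, hCl, hzl⟩ := ih _ (lt_of_lt_of_le hlt hn) (-τ) ν y'
          hF.mirror hTA' g4.mirror hy'0 (g1.trans hy1) le_rfl
        have hCl' : ∀ v ∈ C, ¬ ∃ ε, Lin S v τ ε := by
          rintro v hv ⟨ε, hL⟩
          exact hCl v hv ⟨ε, hL.neg⟩
        refine ⟨z, hz, C ∪ (fun a : ℝ => y + a • e2 τ ν) '' Icc 0 s', ?_, ?_, ?_, Or.inl hzC, ?_, ?_⟩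
        · exact hC.union y' hyC ⟨s', ⟨h0'.le, le_rfl⟩, rfl⟩ (hsegc s')
        · rintro v (hv | ⟨a, ⟨ha0, ha1⟩, rfl⟩)
          · exact hCS hv
          · rcases ha0.eq_or_lt with e | e
            · simp only [← e, zero_smul, add_zero]
              exact hyS.1
            · rcases ha1.eq_or_lt with e' | e'
              · simp only [e']
                exact T'.y_mem
              · obtain ⟨ε, hL⟩ := hray a e e'
                exact hL.z_mem
        · exact Or.inr ⟨0, ⟨le_rfl, h0'.le⟩, by simp⟩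
        · rintro v (hv | ⟨a, ⟨ha0, ha1⟩, rfl⟩)
          · exact hCl' v hv
          · rcases ha0.eq_or_lt with e | e
            · simp only [← e, zero_smul, add_zero]
              exact hynot
            · rcases ha1.eq_or_lt with e' | e'
              · simp only [e']
                exact hCl' y' hyC
              · obtain ⟨ε, hL⟩ := hray a e e'
                exact not_both hang ht1 hL
        · rw [e1_mirror, e2_mirror] at hzl
          exact hzl.symm
  intro τ ν y hF hTA hG hy0 hy1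
  exact key _ τ ν y hF hTA hG hy0 hy1 le_rfl

end PU
end H11ST
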